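import Pool.Agent.Helper17.SA.St4

/-!
# Project SA, part 4, module HN5: `HitIn` for `A_5` from the counts
-/

set_option autoImplicit false

namespace Pool.Agent.Helper29.SA

open Equiv Pool.Agent.Helper17.SA

section

variable {S : Type} [Group S] [Fintype S]

theorem card_D (V' V : Subgroup S) (n0 : S) (hR : Rg V' V n0) (v v' : ℕ)
    (hV : Nat.card V = v) (hV' : Nat.card V' = v') :
    v' * v ≤ Nat.card {n : S // InD V' V n0 n} := by
  rw [← hV, ← hV', ← Nat.card_prod]
  refine Nat.card_le_card_of_injective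
    (fun q : V' × V => (⟨q.1 * n0 * q.2, q.1, q.1.2, q.2, q.2.2, rfl⟩ :
      {n : S // InD V' V n0 n})) ?_
  rintro ⟨⟨a, ha⟩, ⟨b, hb⟩⟩ ⟨⟨a', ha'⟩, ⟨b', hb'⟩⟩ h
  have h1 : a * n0 * b = a' * n0 * b' := congrArg Subtype.val h
  have h2 : n0 * (b' * b⁻¹) * n0⁻¹ = a'⁻¹ * a := by
    have h3 : n0 * b' = a'⁻¹ * (a * n0 * b) := by rw [h1]; group
    calc n0 * (b' * b⁻¹) * n0⁻¹ = (n0 * b') * b⁻¹ * n0⁻¹ := by group
      _ = a'⁻¹ * (a * n0 * b) * b⁻¹ * n0⁻¹ := by rw [h3]
      _ = a'⁻¹ * a := by group
  have h4 : b' * b⁻¹ = 1 := hR _ (V.mul_mem hb' (V.inv_mem hb)) (by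
    rw [h2]
    exact V'.mul_mem (V'.inv_mem ha') ha)
  have h5 : b' = b := by
    rw [mul_inv_eq_one] at h4
    exact h4
  subst h5
  have h6 : a = a' := by
    have := mul_right_cancel h1
    exact mul_right_cancel this
  subst h6
  rfl

omit [Group S] in
open Classical in
theorem natCard_filter (P : S → Prop) :
    Nat.card {n : S // P n} = (Finset.univ.filter P).card := by
  rw [Nat.card_eq_fintype_card, Fintype.card_subtype]

open Classical in
/-- the elements with the property P -/
noncomputable def Fl (P : S → Prop) : Finset S := Finset.univ.filter P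

omit [Group S] in
theorem mem_Fl (P : S → Prop) (n : S) : n ∈ Fl P ↔ P n := by
  simp [Fl]

omit [Group S] in
theorem natCard_Fl (P : S → Prop) : Nat.card {n : S // P n} = (Fl P).card :=
  natCard_filter P

omit [Fintype S] in
theorem cnt_eq {q q0 M1 M2 : ℕ} (h : Cnt S q0 M1 M2) (hq : q = q0) (V V' : Sylow 2 S) (n0 : S)
    (hR : Rg (V' : Subgroup S) V n0) (P : Sylow q S) (c x : S) :
    Nat.card {n : S // InD (V' : Subgroup S) V n0 n ∧ Bad (P : Subgroup S) (c * n)} ≤ M1 ∧
    Nat.card {n : S // InD (V' : Subgroup S) V n0 n ∧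
      (Bad (P : Subgroup S) (c * n) ∨ ∃ a ∈ P, ∃ b ∈ P, c * n = a * x * b)} ≤ M2 := by
  subst hq
  exact h V V' n0 hR P c x

open Classical in
/-- the bad elements for the prime `q` -/
noncomputable def Bq (D : S → Prop) {ι : Type} (p : ι → ℕ) (H : ∀ i, Sylow (p i) S) (c : ι → S)
    (q : ℕ) : Finset S :=
  Finset.univ.filter fun n => D n ∧ ∃ i, p i = q ∧ Bad (H i : Subgroup S) (c i * n)

theorem card_Bq {q M1 M2 : ℕ} (h : Cnt S q M1 M2) (V V' : Sylow 2 S) (n0 : S)
    (hR : Rg (V' : Subgroup S) V n0) {ι : Type} (p : ι → ℕ) (hinj : Function.Injective p)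
    (H : ∀ i, Sylow (p i) S) (c : ι → S) :
    (Bq (InD (V' : Subgroup S) V n0) p H c q).card ≤ M1 := by
  classical
  by_cases h0 : ∃ i, p i = q
  · obtain ⟨i0, hi0⟩ := h0
    have h1 := (cnt_eq h hi0 V V' n0 hR (H i0) (c i0) 1).1
    rw [natCard_filter] at h1
    refine (Finset.card_le_card ?_).trans h1
    intro n hn
    simp only [Bq, Finset.mem_filter, Finset.mem_univ, true_and] at hn ⊢
    obtain ⟨hD, i, hi, hb⟩ := hn
    have : i = i0 := hinj (hi.trans hi0.symm)
    subst this
    exact ⟨hD, hb⟩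
  · have h1 : Bq (InD (V' : Subgroup S) V n0) p H c q = ∅ := by
      ext n
      simp only [Bq, Finset.mem_filter, Finset.mem_univ, true_and, Finset.notMem_empty,
        iff_false]
      rintro ⟨-, i, hi, -⟩
      exact h0 ⟨i, hi⟩
    rw [h1]
    simp

end

theorem card_A5 : Nat.card (alternatingGroup (Fin 5)) = 60 := by
  rw [nat_card_alternatingGroup]
  simp [Nat.factorial]

theorem sylow_two (V : Sylow 2 (alternatingGroup (Fin 5))) :
    Nat.card (V : Subgroup (alternatingGroup (Fin 5))) = 4 := by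
  have h := V.card_eq_multiplicity
  rw [card_A5] at h
  rw [h]
  have : Nat.factorization 60 2 = 2 := by
    have h1 : (60 : ℕ) = 2 ^ 2 * 15 := by norm_num
    rw [h1, Nat.factorization_mul (by norm_num) (by norm_num),
      Nat.Prime.factorization_pow Nat.prime_two]
    have h2 : Nat.factorization 15 2 = 0 := Nat.factorization_eq_zero_of_not_dvd (by norm_num)
    simp [h2]
  rw [this]
  norm_num

theorem sylow_big {q : ℕ} (hq : q.Prime) (h2 : q ≠ 2) (h3 : q ≠ 3) (h5 : q ≠ 5)
    (P : Sylow q (alternatingGroup (Fin 5))) :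
    (P : Subgroup (alternatingGroup (Fin 5))) = ⊥ := by
  have : Fact q.Prime := ⟨hq⟩
  have h := P.card_eq_multiplicity
  rw [card_A5] at h
  have h1 : ¬ q ∣ 60 := by
    intro hd
    have h4 : q ∣ 2 * 2 * 3 * 5 := by simpa using hd
    rcases (Nat.Prime.dvd_mul hq).1 h4 with h6 | h6
    · rcases (Nat.Prime.dvd_mul hq).1 h6 with h7 | h7
      · rcases (Nat.Prime.dvd_mul hq).1 h7 with h8 | h8 <;>
          exact h2 ((Nat.prime_dvd_prime_iff_eq hq Nat.prime_two).1 h8)
      · exact h3 ((Nat.prime_dvd_prime_iff_eq hq Nat.prime_three).1 h7)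
    · exact h5 ((Nat.prime_dvd_prime_iff_eq hq (by norm_num)).1 h6)
  rw [Nat.factorization_eq_zero_of_not_dvd h1, pow_zero] at h
  exact Subgroup.card_eq_one.1 h

theorem not_bad_bot {G : Type} [Group G] (x : G) : ¬ Bad (⊥ : Subgroup G) x := by
  rintro ⟨y, hy, h1, -⟩
  exact h1 (Subgroup.mem_bot.1 hy)

theorem pHN5 : StC53 → StC55 → StHN5 := by
  classical
  intro h3 h5 V V' n0 hR ι _ p hp hinj h2 H c j
  set D : alternatingGroup (Fin 5) → Prop :=
    InD (V' : Subgroup (alternatingGroup (Fin 5))) V n0 with hD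
  have hDc : 16 ≤ (Finset.univ.filter D).card := by
    have h := card_D (V' : Subgroup (alternatingGroup (Fin 5))) V n0 hR 4 4 (sylow_two V)
      (sylow_two V')
    rw [natCard_filter] at h
    exact h
  have hb3 : (Bq D p H c 3).card ≤ 5 := card_Bq h3 V V' n0 hR p hinj H c
  have hb5 : (Bq D p H c 5).card ≤ 5 := card_Bq h5 V V' n0 hR p hinj H c
  have hcase : ∀ n, D n → ∀ i, Bad (H i : Subgroup (alternatingGroup (Fin 5))) (c i * n) →
      n ∈ Bq D p H c 3 ∨ n ∈ Bq D p H c 5 := by
    intro n hn i hi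
    by_cases h33 : p i = 3
    · left
      simp only [Bq, Finset.mem_filter, Finset.mem_univ, true_and]
      exact ⟨hn, i, h33, hi⟩
    by_cases h55 : p i = 5
    · right
      simp only [Bq, Finset.mem_filter, Finset.mem_univ, true_and]
      exact ⟨hn, i, h55, hi⟩
    exfalso
    rw [sylow_big (hp i) (h2 i) h33 h55 (H i)] at hi
    exact not_bad_bot _ hi
  -- the first element
  have hn1 : ∃ n, D n ∧ ∀ i, ¬ Bad (H i : Subgroup (alternatingGroup (Fin 5))) (c i * n) := by
    by_contra hcon
    push Not at hcon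
    have hsub : Finset.univ.filter D ⊆ Bq D p H c 3 ∪ Bq D p H c 5 := by
      intro n hn
      have hDn : D n := (Finset.mem_filter.1 hn).2
      obtain ⟨i, hi⟩ := hcon n hDn
      exact Finset.mem_union.2 (hcase n hDn i hi)
    have h6 := (Finset.card_le_card hsub).trans (Finset.card_union_le _ _)
    omega
  obtain ⟨n, hDn, hgn⟩ := hn1
  have hn2 : ∃ n', D n' ∧ (∀ i, ¬ Bad (H i : Subgroup (alternatingGroup (Fin 5))) (c i * n')) ∧
      ∀ a ∈ H j, ∀ b ∈ H j, c j * n' ≠ a * (c j * n) * b := by
    by_contra hcon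
    push Not at hcon
    by_cases hj3 : p j = 3
    · have h7 := (cnt_eq h3 hj3 V V' n0 hR (H j) (c j) (c j * n)).2
      rw [natCard_Fl] at h7
      have hsub : Finset.univ.filter D ⊆ (Fl fun n' =>
          InD (V' : Subgroup (alternatingGroup (Fin 5))) V n0 n' ∧
          (Bad (H j : Subgroup (alternatingGroup (Fin 5))) (c j * n') ∨
            ∃ a ∈ H j, ∃ b ∈ H j, c j * n' = a * (c j * n) * b)) ∪ Bq D p H c 5 := by
        intro n' hn'
        have hDn' : D n' := (Finset.mem_filter.1 hn').2
        rw [Finset.mem_union, mem_Fl]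
        by_cases hall : ∀ i, ¬ Bad (H i : Subgroup (alternatingGroup (Fin 5))) (c i * n')
        · obtain ⟨a, ha, b, hb, hab⟩ := hcon n' hDn' hall
          exact Or.inl ⟨hDn', Or.inr ⟨a, ha, b, hb, hab⟩⟩
        · push Not at hall
          obtain ⟨i, hi⟩ := hall
          rcases hcase n' hDn' i hi with h8 | h8
          · simp only [Bq, Finset.mem_filter, Finset.mem_univ, true_and] at h8
            obtain ⟨-, i', hi', hb'⟩ := h8
            have : i' = j := hinj (hi'.trans hj3.symm)
            subst this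
            exact Or.inl ⟨hDn', Or.inl hb'⟩
          · exact Or.inr h8
      have h9 := (Finset.card_le_card hsub).trans (Finset.card_union_le _ _)
      omega
    by_cases hj5 : p j = 5
    · have h7 := (cnt_eq h5 hj5 V V' n0 hR (H j) (c j) (c j * n)).2
      rw [natCard_Fl] at h7
      have hsub : Finset.univ.filter D ⊆ (Fl fun n' =>
          InD (V' : Subgroup (alternatingGroup (Fin 5))) V n0 n' ∧
          (Bad (H j : Subgroup (alternatingGroup (Fin 5))) (c j * n') ∨
            ∃ a ∈ H j, ∃ b ∈ H j, c j * n' = a * (c j * n) * b)) ∪ Bq D p H c 3 := by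
        intro n' hn'
        have hDn' : D n' := (Finset.mem_filter.1 hn').2
        rw [Finset.mem_union, mem_Fl]
        by_cases hall : ∀ i, ¬ Bad (H i : Subgroup (alternatingGroup (Fin 5))) (c i * n')
        · obtain ⟨a, ha, b, hb, hab⟩ := hcon n' hDn' hall
          exact Or.inl ⟨hDn', Or.inr ⟨a, ha, b, hb, hab⟩⟩
        · push Not at hall
          obtain ⟨i, hi⟩ := hall
          rcases hcase n' hDn' i hi with h8 | h8
          · exact Or.inr h8
          · simp only [Bq, Finset.mem_filter, Finset.mem_univ, true_and] at h8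
            obtain ⟨-, i', hi', hb'⟩ := h8
            have : i' = j := hinj (hi'.trans hj5.symm)
            subst this
            exact Or.inl ⟨hDn', Or.inl hb'⟩
      have h9 := (Finset.card_le_card hsub).trans (Finset.card_union_le _ _)
      omega
    · have hbot := sylow_big (hp j) (h2 j) hj3 hj5 (H j)
      have hmem : ∀ a ∈ H j, a = 1 := by
        intro a ha
        have ha' : a ∈ (H j : Subgroup (alternatingGroup (Fin 5))) := ha
        rw [hbot] at ha'
        exact Subgroup.mem_bot.1 ha'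
      have hsub : Finset.univ.filter D ⊆ (Bq D p H c 3 ∪ Bq D p H c 5) ∪ {n} := by
        intro n' hn'
        have hDn' : D n' := (Finset.mem_filter.1 hn').2
        rw [Finset.mem_union, Finset.mem_union, Finset.mem_singleton]
        by_cases hall : ∀ i, ¬ Bad (H i : Subgroup (alternatingGroup (Fin 5))) (c i * n')
        · obtain ⟨a, ha, b, hb, hab⟩ := hcon n' hDn' hall
          rw [hmem a ha, hmem b hb, one_mul, mul_one] at hab
          exact Or.inr (mul_left_cancel hab)
        · push Not at hall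
          obtain ⟨i, hi⟩ := hall
          exact Or.inl (hcase n' hDn' i hi)
      have h9 := (Finset.card_le_card hsub).trans (Finset.card_union_le _ _)
      have h10 := Finset.card_union_le (Bq D p H c 3) (Bq D p H c 5)
      rw [Finset.card_singleton] at h9
      omega
  obtain ⟨n', hDn', hgn', hcol⟩ := hn2
  exact ⟨n, n', hDn, hDn', hgn, hgn', hcol⟩

end Pool.Agent.Helper29.SA
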